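import Mathlib

namespace Pool.Agent.Results.MP_8c6d5c_co.Double

open Polynomial

/-- The bicycle space of `A`. -/
def bic {n : ℕ} (C : Submodule (ZMod 2) (Fin n → ZMod 2)) (A : Finset (Fin n)) :
    Submodule (ZMod 2) (Fin n → ZMod 2) where
  carrier := {c | c ∈ C ∧ ∀ d ∈ C, ∑ i ∈ A, c i * d i = 0}
  add_mem' := fun {a b} ha hb => ⟨C.add_mem ha.1 hb.1, fun d hd => by
    simp only [Pi.add_apply, add_mul, Finset.sum_add_distrib, ha.2 d hd, hb.2 d hd, add_zero]⟩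
  zero_mem' := ⟨C.zero_mem, fun d _ => by simp⟩
  smul_mem' := fun r a ha => ⟨C.smul_mem r ha.1, fun d hd => by
    simp only [Pi.smul_apply, smul_eq_mul, mul_assoc, ← Finset.mul_sum, ha.2 d hd, mul_zero]⟩

/-- The Penrose polynomial. -/
noncomputable def penrose {n : ℕ} (C : Submodule (ZMod 2) (Fin n → ZMod 2)) : ℤ[X] :=
  ∑ A : Finset (Fin n), (-1) ^ A.card * X ^ Module.finrank (ZMod 2) (bic C A)

/-- Connectivity. -/
def Conn {n : ℕ} (C : Submodule (ZMod 2) (Fin n → ZMod 2)) : Prop :=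
  0 < n ∧ ∀ E : Finset (Fin n), E.Nonempty → Eᶜ.Nonempty →
    ¬ ∀ c, c ∈ C ↔ ∃ c₁ ∈ C, ∃ c₂ ∈ C, (∀ i ∉ E, c₁ i = 0) ∧ (∀ i ∈ E, c₂ i = 0) ∧ c = c₁ + c₂

def CC : Submodule (ZMod 2) (Fin 9 → ZMod 2) where
  carrier := {c | c 5 = c 2 + c 3 ∧ c 6 = c 0 + c 3 ∧ c 7 = c 0 + c 2 + c 3 ∧
    c 8 = c 0 + c 1 + c 2 + c 4}
  add_mem' := fun {a b} ha hb => by
    obtain ⟨a1, a2, a3, a4⟩ := ha
    obtain ⟨b1, b2, b3, b4⟩ := hb
    simp only [Set.mem_ofPred_eq, Pi.add_apply, a1, a2, a3, a4, b1, b2, b3, b4]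
    refine ⟨?_, ?_, ?_, ?_⟩ <;> ring
  zero_mem' := by simp
  smul_mem' := fun r a ha => by
    obtain ⟨a1, a2, a3, a4⟩ := ha
    simp only [Set.mem_ofPred_eq, Pi.smul_apply, smul_eq_mul, a1, a2, a3, a4]
    refine ⟨?_, ?_, ?_, ?_⟩ <;> ring

def bt (m : ℕ) (i : Fin 9) : ZMod 2 := if m.testBit i then 1 else 0

def cw (u : Fin 32) : ℕ := [0, 449, 258, 195, 420, 101, 166, 359, 232, 297, 490, 43, 332, 141,
  78, 399, 272, 209, 18, 467, 180, 373, 438, 119, 504, 57, 250, 315, 92, 413, 350, 159].getD u 0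

theorem mem_iff (c : Fin 9 → ZMod 2) : c ∈ CC ↔ c 5 = c 2 + c 3 ∧ c 6 = c 0 + c 3 ∧
    c 7 = c 0 + c 2 + c 3 ∧ c 8 = c 0 + c 1 + c 2 + c 4 := Iff.rfl

theorem cw_mem : ∀ u, bt (cw u) ∈ CC := by
  simp only [mem_iff]; decide +kernel

theorem cw_inj : Function.Injective fun u => bt (cw u) := by
  intro u v; revert u v; decide +kernel

theorem cw_surj (c : Fin 9 → ZMod 2) (h : c ∈ CC) : ∃ u, bt (cw u) = c := by
  obtain ⟨h1, h2, h3, h4⟩ := h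
  have key : ∀ a0 a1 a2 a3 a4 : ZMod 2, ∃ u, bt (cw u) 0 = a0 ∧ bt (cw u) 1 = a1 ∧
      bt (cw u) 2 = a2 ∧ bt (cw u) 3 = a3 ∧ bt (cw u) 4 = a4 := by decide +kernel
  obtain ⟨u, e0, e1, e2, e3, e4⟩ := key (c 0) (c 1) (c 2) (c 3) (c 4)
  obtain ⟨k1, k2, k3, k4⟩ := cw_mem u
  refine ⟨u, funext fun i => ?_⟩
  fin_cases i
  exacts [e0, e1, e2, e3, e4, by
    show bt (cw u) 5 = c 5
    rw [k1, h1, e2, e3], by
    show bt (cw u) 6 = c 6
    rw [k2, h2, e0, e3], by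
    show bt (cw u) 7 = c 7
    rw [k3, h3, e0, e2, e3], by
    show bt (cw u) 8 = c 8
    rw [k4, h4, e0, e1, e2, e4]]

def ok (A : Finset (Fin 9)) (c : Fin 9 → ZMod 2) : Prop :=
  ∑ i ∈ A, c i * bt 449 i = 0 ∧ ∑ i ∈ A, c i * bt 258 i = 0 ∧ ∑ i ∈ A, c i * bt 420 i = 0 ∧
    ∑ i ∈ A, c i * bt 232 i = 0 ∧ ∑ i ∈ A, c i * bt 272 i = 0

instance (A : Finset (Fin 9)) (c : Fin 9 → ZMod 2) : Decidable (ok A c) := by
  unfold ok; infer_instance

theorem span (d : Fin 9 → ZMod 2) (h : d ∈ CC) (i : Fin 9) : d i = d 0 * bt 449 i +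
    d 1 * bt 258 i + d 2 * bt 420 i + d 3 * bt 232 i + d 4 * bt 272 i := by
  obtain ⟨u, rfl⟩ := cw_surj d h
  clear h
  revert u i
  decide +kernel

theorem mem_bic (A : Finset (Fin 9)) (c : Fin 9 → ZMod 2) :
    c ∈ bic CC A ↔ c ∈ CC ∧ ok A c := by
  refine and_congr_right fun _ => ⟨fun h => ⟨h _ (cw_mem 1), h _ (cw_mem 2), h _ (cw_mem 4),
    h _ (cw_mem 8), h _ (cw_mem 16)⟩, fun ⟨h0, h1, h2, h3, h4⟩ d hd => ?_⟩
  have : ∀ i, c i * d i = d 0 * (c i * bt 449 i) + d 1 * (c i * bt 258 i) +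
      d 2 * (c i * bt 420 i) + d 3 * (c i * bt 232 i) + d 4 * (c i * bt 272 i) := fun i => by
    rw [span d hd i]; ring
  simp only [this, Finset.sum_add_distrib, ← Finset.mul_sum, h0, h1, h2, h3, h4, mul_zero,
    add_zero]

def D (A : Finset (Fin 9)) : ℕ :=
  Nat.log 2 (Finset.univ.filter fun u : Fin 32 => ok A (bt (cw u))).card

theorem rank_eq (A : Finset (Fin 9)) : Module.finrank (ZMod 2) (bic CC A) = D A := by
  have h1 : Nat.card (bic CC A) = 2 ^ Module.finrank (ZMod 2) (bic CC A) := by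
    rw [Module.natCard_eq_pow_finrank (K := ZMod 2)]; simp
  have h2 : Nat.card (bic CC A) =
      (Finset.univ.filter fun u : Fin 32 => ok A (bt (cw u))).card := by
    rw [← Fintype.card_subtype, ← Nat.card_eq_fintype_card]
    symm
    refine Nat.card_eq_of_bijective
      (fun u => ⟨bt (cw u.1), (mem_bic A _).2 ⟨cw_mem _, u.2⟩⟩) ⟨fun u v h => ?_, fun c => ?_⟩
    · exact Subtype.ext (cw_inj (congrArg Subtype.val h))
    · obtain ⟨h3, h4⟩ := (mem_bic A _).1 c.2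
      obtain ⟨u, hu⟩ := cw_surj _ h3
      exact ⟨⟨u, hu ▸ h4⟩, Subtype.ext hu⟩
  unfold D
  rw [← h2, h1, Nat.log_pow (by norm_num)]

theorem s0 : ∑ A : Finset (Fin 9), ((-1) ^ A.card : ℤ) = 0 := by
  decide +kernel

theorem s1 : ∑ A : Finset (Fin 9), ((-1) ^ A.card * D A : ℤ) = 0 := by
  decide +kernel

theorem s2 : ∑ A : Finset (Fin 9), ((-1) ^ A.card * 3 ^ D A : ℤ) = 4 := by
  decide +kernel

theorem cut : ∀ E : Finset (Fin 9), E.Nonempty → Eᶜ.Nonempty → ∃ u,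
    (fun i => if i ∈ E then bt (cw u) i else 0) ∉ CC := by
  simp only [mem_iff]; decide +kernel

theorem dv (k : ℕ) : (X - 1 : ℤ[X]) ^ 2 ∣ (X : ℤ[X]) ^ k - 1 - (k : ℤ[X]) * (X - 1) := by
  induction k with
  | zero => simp
  | succ k ih =>
    obtain ⟨q, hq⟩ := ih
    exact ⟨X * q + (k : ℤ[X]), by push_cast; linear_combination X * hq⟩

theorem gen {ι : Type} (s : Finset ι) (e d : ι → ℕ) (h0 : ∑ A ∈ s, ((-1) ^ e A : ℤ) = 0)
    (h1 : ∑ A ∈ s, ((-1) ^ e A * d A : ℤ) = 0) (h2 : ∑ A ∈ s, ((-1) ^ e A * 3 ^ d A : ℤ) = 4) :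
    (∑ A ∈ s, (-1) ^ e A * X ^ d A : ℤ[X]) ≠ 0 ∧
      (X - 1) ^ 2 ∣ (∑ A ∈ s, (-1) ^ e A * X ^ d A : ℤ[X]) := by
  refine ⟨fun h => ?_, ?_⟩
  · have := congrArg (eval 3) h
    simp only [eval_finsetSum, eval_mul, eval_pow, eval_neg, eval_one, eval_X, h2,
      eval_zero] at this
    exact absurd this (by norm_num)
  · have a0 : ∑ A ∈ s, ((-1) ^ e A : ℤ[X]) = 0 := by
      have := congrArg (Int.cast : ℤ → ℤ[X]) h0
      push_cast at this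
      exact this
    have a1 : ∑ A ∈ s, ((-1) ^ e A * d A : ℤ[X]) = 0 := by
      have := congrArg (Int.cast : ℤ → ℤ[X]) h1
      push_cast at this
      exact this
    have e1 : (∑ A ∈ s, (-1) ^ e A * X ^ d A : ℤ[X]) = ∑ A ∈ s,
        (-1) ^ e A * ((X : ℤ[X]) ^ d A - 1 - (d A : ℤ[X]) * (X - 1)) := by
      have : ∀ A, (-1) ^ e A * ((X : ℤ[X]) ^ d A - 1 - (d A : ℤ[X]) * (X - 1)) =
          (-1) ^ e A * X ^ d A - (-1) ^ e A - (-1) ^ e A * (d A : ℤ[X]) * (X - 1) :=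
        fun A => by ring
      simp only [this, Finset.sum_sub_distrib, ← Finset.sum_mul, a0, a1, zero_mul, sub_zero]
    rw [e1]
    exact Finset.dvd_sum fun A _ => (dv _).mul_left _

theorem pen_eq : penrose CC = ∑ A : Finset (Fin 9), (-1) ^ A.card * X ^ D A :=
  Finset.sum_congr rfl fun A _ => by rw [rank_eq]

theorem result : ∃ C : Submodule (ZMod 2) (Fin 9 → ZMod 2),
    Conn C ∧ penrose C ≠ 0 ∧ (X - 1) ^ 2 ∣ penrose C := by
  refine ⟨CC, ⟨by norm_num, fun E h1 h2 h => ?_⟩, ?_⟩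
  · obtain ⟨u, hu⟩ := cut E h1 h2
    obtain ⟨c₁, m1, c₂, -, z1, z2, e⟩ := (h _).1 (cw_mem u)
    apply hu
    have : (fun i => if i ∈ E then bt (cw u) i else 0) = c₁ := by
      funext i
      split_ifs with hi
      · rw [e, Pi.add_apply, z2 i hi, add_zero]
      · exact (z1 i hi).symm
    rw [this]
    exact m1
  · rw [pen_eq]
    exact gen _ _ _ s0 s1 s2

end Pool.Agent.Results.MP_8c6d5c_co.Double
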